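import Pool.Agent.helper78.NLS.Spec

/-!
# nls: PCB: bounds and homogeneity for the coefficients of a power
-/

set_option autoImplicit false

open Complex Metric Set Filter Topology MeasureTheory MPS
open Pool.Agent.helper98.ILF Pool.Agent.helper16.Multibrot

noncomputable section

namespace NLS

theorem PCB_z (a : ℕ → ℂ) (m : ℕ) : Pc a m 0 = a 0 ^ m := by
  induction m with
  | zero => simp [Pc]
  | succ m ih =>
    simp only [Pc, zero_add, Finset.range_one, Finset.sum_singleton, Nat.sub_self, ih, pow_succ]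

theorem PCB_b1 (a : ℕ → ℂ) (M : ℝ) (hM : 0 ≤ M) (ha : ∀ i, ‖a i‖ ≤ M) (m : ℕ) :
    ∀ j : ℕ, ‖Pc a m j‖ ≤ M ^ m * ((j : ℝ) + 1) ^ m := by
  induction m with
  | zero =>
    intro j
    by_cases hj : j = 0 <;> simp [Pc, hj]
  | succ m ih =>
    intro j
    have h1 : ∀ i ∈ Finset.range (j + 1), ‖Pc a m i * a (j - i)‖ ≤ M ^ m * ((j : ℝ) + 1) ^ m * M := by
      intro i hi
      have hi' : i ≤ j := Nat.lt_succ_iff.mp (Finset.mem_range.mp hi)
      have h2 : (i : ℝ) ≤ j := by exact_mod_cast hi'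
      rw [norm_mul]
      refine mul_le_mul ((ih i).trans ?_) (ha _) (norm_nonneg _) (by positivity)
      gcongr
    calc ‖Pc a (m + 1) j‖ ≤ ∑ i ∈ Finset.range (j + 1), ‖Pc a m i * a (j - i)‖ := by
          simp only [Pc]; exact norm_sum_le _ _
      _ ≤ ∑ i ∈ Finset.range (j + 1), M ^ m * ((j : ℝ) + 1) ^ m * M := Finset.sum_le_sum h1
      _ = M ^ (m + 1) * ((j : ℝ) + 1) ^ (m + 1) := by
          rw [Finset.sum_const, Finset.card_range, nsmul_eq_mul]; push_cast; ring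

theorem PCB_b3 (a : ℕ → ℂ) (A M : ℝ) (hM : 0 ≤ M) (hA : 0 ≤ A) (ha0 : ‖a 0‖ ≤ A) (J : ℕ)
    (ha : ∀ i, 1 ≤ i → i ≤ J → ‖a i‖ ≤ M) (m : ℕ) :
    ∀ j : ℕ, 1 ≤ j → j ≤ J → ‖Pc a (m + 1) j‖ ≤ (A + M) ^ m * M * ((j : ℝ) + 1) ^ (m + 1) := by
  induction m with
  | zero =>
    intro j hj hJ
    have h1 : Pc a 1 j = a j := by
      simp only [Pc]
      rw [Finset.sum_eq_single 0]
      · simp
      · intro i _ hi; simp [hi]
      · intro h; exact absurd (Finset.mem_range.mpr (Nat.succ_pos j)) h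
    rw [zero_add, h1]
    have h2 := ha j hj hJ
    have h3 : (0 : ℝ) ≤ j := Nat.cast_nonneg j
    have h4 : 0 ≤ M * j := mul_nonneg hM h3
    simp only [pow_zero, one_mul, pow_one]
    nlinarith
  | succ m ih =>
    intro j hj hJ
    have hAM : 0 ≤ A + M := add_nonneg hA hM
    have hj1 : (1 : ℝ) ≤ (j : ℝ) + 1 := by
      have h3 : (0 : ℝ) ≤ j := Nat.cast_nonneg j
      linarith
    have h1 : ∀ i ∈ Finset.range (j + 1), ‖Pc a (m + 1) i * a (j - i)‖ ≤ (A + M) ^ (m + 1) * M * ((j : ℝ) + 1) ^ (m + 1) := by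
      intro i hi
      have hi' : i ≤ j := Nat.lt_succ_iff.mp (Finset.mem_range.mp hi)
      have h2 : (i : ℝ) ≤ j := by exact_mod_cast hi'
      rw [norm_mul]
      rcases Nat.eq_zero_or_pos i with h0 | h0
      · subst h0
        rw [PCB_z, Nat.sub_zero, norm_pow]
        have h5 : ‖a 0‖ ^ (m + 1) ≤ (A + M) ^ (m + 1) := by
          apply pow_le_pow_left₀ (norm_nonneg _); linarith
        have h6 : (1 : ℝ) ≤ ((j : ℝ) + 1) ^ (m + 1) := one_le_pow₀ hj1
        calc ‖a 0‖ ^ (m + 1) * ‖a j‖ ≤ (A + M) ^ (m + 1) * M :=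
              mul_le_mul h5 (ha j hj hJ) (norm_nonneg _) (by positivity)
          _ = (A + M) ^ (m + 1) * M * 1 := by ring
          _ ≤ (A + M) ^ (m + 1) * M * ((j : ℝ) + 1) ^ (m + 1) :=
              mul_le_mul_of_nonneg_left h6 (by positivity)
      · have h5 := ih i h0 (hi'.trans hJ)
        have h6 : ‖a (j - i)‖ ≤ A + M := by
          rcases Nat.eq_zero_or_pos (j - i) with h7 | h7
          · rw [h7]; linarith
          · have := ha (j - i) h7 ((Nat.sub_le j i).trans hJ); linarith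
        have h7 : (A + M) ^ m * M * ((i : ℝ) + 1) ^ (m + 1) ≤ (A + M) ^ m * M * ((j : ℝ) + 1) ^ (m + 1) := by
          gcongr
        calc ‖Pc a (m + 1) i‖ * ‖a (j - i)‖ ≤ ((A + M) ^ m * M * ((j : ℝ) + 1) ^ (m + 1)) * (A + M) :=
              mul_le_mul (h5.trans h7) h6 (norm_nonneg _) (by positivity)
          _ = (A + M) ^ (m + 1) * M * ((j : ℝ) + 1) ^ (m + 1) := by ring
    calc ‖Pc a (m + 1 + 1) j‖ ≤ ∑ i ∈ Finset.range (j + 1), ‖Pc a (m + 1) i * a (j - i)‖ := by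
          rw [Pc]; exact norm_sum_le _ _
      _ ≤ ∑ i ∈ Finset.range (j + 1), (A + M) ^ (m + 1) * M * ((j : ℝ) + 1) ^ (m + 1) := Finset.sum_le_sum h1
      _ = (A + M) ^ (m + 1) * M * ((j : ℝ) + 1) ^ (m + 1 + 1) := by
          rw [Finset.sum_const, Finset.card_range, nsmul_eq_mul]; push_cast; ring

theorem PCB_h (a : ℕ → ℂ) (b : ℂ) (m : ℕ) : ∀ j : ℕ, Pc (fun i => b * a i) m j = b ^ m * Pc a m j := by
  induction m with
  | zero => intro j; simp [Pc]
  | succ m ih =>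
    intro j
    rw [Pc, Pc, Finset.mul_sum]
    apply Finset.sum_congr rfl
    intro i _
    rw [ih i]; ring

theorem PCB_c (a b : ℕ → ℂ) (m : ℕ) : ∀ j : ℕ, (∀ i ≤ j, a i = b i) → Pc a m j = Pc b m j := by
  induction m with
  | zero => intro j _; rfl
  | succ m ih =>
    intro j h
    rw [Pc, Pc]
    apply Finset.sum_congr rfl
    intro i hi
    have hi' : i ≤ j := Nat.lt_succ_iff.mp (Finset.mem_range.mp hi)
    rw [ih i (fun l hl => h l (hl.trans hi')), h (j - i) (Nat.sub_le j i)]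

theorem PCB_t (x : ℕ → ℕ → ℂ) (a : ℕ → ℂ) (h : ∀ i, Tendsto (fun k => x k i) atTop (𝓝 (a i))) (m : ℕ) :
    ∀ j : ℕ, Tendsto (fun k => Pc (x k) m j) atTop (𝓝 (Pc a m j)) := by
  induction m with
  | zero => intro j; exact tendsto_const_nhds
  | succ m ih =>
    intro j
    have h1 : Tendsto (fun k => ∑ i ∈ Finset.range (j + 1), Pc (x k) m i * x k (j - i)) atTop
        (𝓝 (∑ i ∈ Finset.range (j + 1), Pc a m i * a (j - i))) :=
      tendsto_finsetSum _ (fun i _ => (ih i).mul (h (j - i)))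
    exact h1

theorem PCB : PCB_stmt := by
  refine ⟨fun a M m j hM ha => PCB_b1 a M hM ha m j, fun a b m j => PCB_h a b m j, ?_, PCB_z,
    fun a b m j h => PCB_c a b m j h, fun m j x a h => PCB_t x a h m j⟩
  intro a A M m j hM hA ha0 ha hm hj
  obtain ⟨m', rfl⟩ : ∃ m', m = m' + 1 := ⟨m - 1, by omega⟩
  exact PCB_b3 a A M hM hA ha0 j ha m' j hj le_rfl

end NLS
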